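import Pool.Agent.H777R4.DM.Stmts

/-!
Task `TaskTwoB` of the project H777-DSH: the antipode of a Lie polynomial.
-/

set_option autoImplicit false

namespace Pool.Agent.H777R4.DM

attribute [local instance 100] LieRing.ofAssociativeRing

namespace TwoB

theorem lext_single {α V : Type} [AddCommGroup V] [Module ℚ V] (F : List α → V)
    (m : FreeMonoid α) (r : ℚ) :
    lext F (MonoidAlgebra.single m r) = r • F (FreeMonoid.toList m) := by
  unfold lext
  simp [MonoidAlgebra.coeffLinearEquiv, Finsupp.linearCombination_single]

theorem co_add {α : Type} (P Q : Al α) (l : List α) : co (P + Q) l = co P l + co Q l := rfl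

theorem co_zero {α : Type} (l : List α) : co (0 : Al α) l = 0 := rfl

theorem co_smul {α : Type} (r : ℚ) (P : Al α) (l : List α) : co (r • P) l = r * co P l := rfl

theorem co_neg {α : Type} (P : Al α) (l : List α) : co (-P) l = - co P l := by
  have h := co_add P (-P) l
  rw [add_neg_cancel, co_zero] at h
  linarith

open Classical in
theorem co_single {α : Type} (m : FreeMonoid α) (r : ℚ) (l : List α) :
    co (MonoidAlgebra.single m r) l = if FreeMonoid.toList m = l then r else 0 := by
  unfold co
  rw [MonoidAlgebra.coeff_single, Finsupp.single_apply]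
  by_cases h : FreeMonoid.toList m = l
  · rw [if_pos h, if_pos]
    rw [← h]; rfl
  · rw [if_neg h, if_neg]
    intro h2
    exact h (by rw [h2]; rfl)

/-- The antipode. -/
noncomputable def S : A →ₗ[ℚ] A := lext (fun u => (-1 : ℚ) ^ u.length • wd u.reverse)

theorem S_single (m : FreeMonoid (Fin 2)) (r : ℚ) : S (MonoidAlgebra.single m r) =
    MonoidAlgebra.single (FreeMonoid.ofList (FreeMonoid.toList m).reverse)
      (r * (-1) ^ (FreeMonoid.toList m).length) := by
  unfold S
  rw [lext_single]
  unfold wd
  rw [MonoidAlgebra.of_apply, MonoidAlgebra.smul_single, MonoidAlgebra.smul_single]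
  simp

theorem S_mul (P Q : A) : S (P * Q) = S Q * S P := by
  induction P using MonoidAlgebra.induction_linear with
  | zero => simp
  | add P₁ P₂ h1 h2 => rw [add_mul, map_add, map_add, mul_add, h1, h2]
  | single m r =>
    induction Q using MonoidAlgebra.induction_linear with
    | zero => simp
    | add Q₁ Q₂ h1 h2 => rw [mul_add, map_add, map_add, add_mul, h1, h2]
    | single n s =>
      rw [MonoidAlgebra.single_mul_single, S_single, S_single, S_single,
        MonoidAlgebra.single_mul_single]
      congr 1
      · rw [← FreeMonoid.ofList_append, FreeMonoid.toList_mul, List.reverse_append]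
      · rw [FreeMonoid.toList_mul, List.length_append, pow_add]
        ring

theorem co_S (P : A) (u : List (Fin 2)) : co (S P) u = (-1) ^ u.length * co P u.reverse := by
  classical
  induction P using MonoidAlgebra.induction_linear with
  | zero => simp [co_zero]
  | add P₁ P₂ h1 h2 => rw [map_add, co_add, co_add, h1, h2]; ring
  | single m r =>
    rw [S_single, co_single, co_single]
    by_cases h : FreeMonoid.toList m = u.reverse
    · rw [if_pos h, if_pos]
      · rw [h, List.length_reverse]; ring
      · rw [FreeMonoid.toList_ofList, h, List.reverse_reverse]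
    · rw [if_neg h, if_neg, mul_zero]
      intro h2
      apply h
      rw [FreeMonoid.toList_ofList] at h2
      rw [← h2, List.reverse_reverse]

/-- The Lie subalgebra where the antipode is `-1`. -/
noncomputable def K : LieSubalgebra ℚ A where
  carrier := {P | S P = -P}
  add_mem' := by
    intro P Q hP hQ
    show S (P + Q) = -(P + Q)
    rw [map_add, show S P = -P from hP, show S Q = -Q from hQ, neg_add]
  zero_mem' := by
    show S 0 = -0
    simp
  smul_mem' := by
    intro c P hP
    show S (c • P) = -(c • P)
    rw [map_smul, show S P = -P from hP, smul_neg]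
  lie_mem' := by
    intro P Q hP hQ
    have h1 : S P = -P := hP
    have h2 : S Q = -Q := hQ
    show S ⁅P, Q⁆ = -⁅P, Q⁆
    rw [LieRing.of_associative_ring_bracket, map_sub, S_mul, S_mul, h1, h2]
    noncomm_ring

theorem x_mem (i : Fin 2) : x i ∈ K := by
  show S (x i) = - x i
  unfold x wd
  rw [MonoidAlgebra.of_apply, S_single]
  rw [FreeMonoid.toList_ofList]
  simp

end TwoB

open TwoB in
theorem taskTwoB : TaskTwoB := by
  intro ψ hψ u
  have hle : LieX ≤ K := by
    unfold LieX
    rw [LieSubalgebra.lieSpan_le]
    rintro y (rfl | rfl)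
    · exact x_mem 0
    · exact x_mem 1
  have h : S ψ = -ψ := hle hψ
  have h2 := co_S ψ u
  rw [h, co_neg] at h2
  have h3 : ((-1 : ℚ) ^ u.length) * (-1) ^ u.length = 1 := by
    rw [← mul_pow]; norm_num
  calc co ψ u.reverse = ((-1 : ℚ) ^ u.length * (-1) ^ u.length) * co ψ u.reverse := by
        rw [h3, one_mul]
    _ = (-1) ^ u.length * ((-1) ^ u.length * co ψ u.reverse) := by ring
    _ = (-1) ^ (u.length + 1) * co ψ u := by rw [← h2, pow_succ]; ring

end Pool.Agent.H777R4.DM
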